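import Pool.Agent.P.MP_6f5b02_nt.Main

/-! Almost primes `n` such that `n` and `n (n + 1) / 2 - 2` both have an odd number of prime
factors, counted with multiplicity. -/

namespace Pool.Agent.Results.MP_6f5b02_nt.OddAlmostPrimes

open ArithmeticFunction

theorem result : ∃ r K : ℕ, ∀ᶠ X : ℕ in Filter.atTop,
    √(X : ℝ) / Real.log X ^ K ≤
      (((Finset.range (X + 1)).filter fun n : ℕ =>
        Odd (cardFactors n) ∧ cardFactors n ≤ r ∧
          Odd (cardFactors (n * (n + 1) / 2 - 2)) ∧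
            cardFactors (n * (n + 1) / 2 - 2) ≤ r).card : ℝ) := by
  obtain ⟨r, K, h⟩ := Pool.Agent.P.MP_6f5b02_nt.main
  refine ⟨r, K, h.mono fun X hX => hX.trans (le_of_eq ?_)⟩
  congr 1
  congr

end Pool.Agent.Results.MP_6f5b02_nt.OddAlmostPrimes
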