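import Pool.Agent.P.MP_6f5b02_nt.Hy.All
import Pool.Agent.P.MP_6f5b02_nt.Hy.Final

namespace Pool.Agent.Results.MP_6f5b02_nt.ParityDensity

open Pool.Agent.P.MP_6f5b02_nt.Hy

/-- Let `θ < 1 / 2`. There is `c > 0` such that for all large `X`, every set `P` that contains the
primes of `(X ^ θ, X]` and every parity `e`, for at least `c X` of the `2 ≤ n ≤ X` the number of
prime factors of `n (n + 1) / 2 - 2` that lie in `P`, counted with multiplicity, has the
parity `e`. -/
theorem result (θ : ℝ) (hθ : θ < 1 / 2) :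
    ∃ c : ℝ, 0 < c ∧ ∀ᶠ X : ℕ in Filter.atTop, ∀ (P : ℕ → Bool) (e : ℕ),
      (∀ p : ℕ, p.Prime → (X : ℝ) ^ θ < p → p ≤ X → P p = true) →
      c * X ≤ (((Finset.Icc 2 X).filter fun n =>
        (n * (n + 1) / 2 - 2).primeFactorsList.countP P % 2 = e % 2).card : ℝ) := by
  obtain ⟨c, hc, h⟩ := G.cnt_of_top g_TRANSFER g_TRI g_TOP θ hθ
  refine ⟨c, hc, h.mono fun X hX P e he => ?_⟩
  obtain ⟨a, b⟩ := hX (fun m => (-1) ^ m.primeFactorsList.countP P) (G.par_mul P)
    fun n _ => neg_one_pow_eq_or ℤ _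
  simp only [← neg_one_mul ((-1 : ℤ) ^ _), ← pow_succ', G.par_iff] at a b
  by_cases hj : (Nat.primeFactorsList 2).countP P % 2 = e % 2
  · rwa [hj] at a
  · rw [show ((Nat.primeFactorsList 2).countP P + 1) % 2 = e % 2 by omega] at b
    refine b fun p hp h1 h2 => ?_
    simp [Nat.primeFactorsList_prime hp, he p hp h1 h2]

end Pool.Agent.Results.MP_6f5b02_nt.ParityDensity
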