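import Pool.Agent.P.MP_6f5b02_nt.CP.All

/-! Prime arguments in characteristic two: the value of the quadratic polynomial is an almost
prime with a prescribed parity of the number of prime factors. -/

namespace Pool.Agent.Results.MP_6f5b02_nt.PrimeArgumentParity

open Polynomial Filter
open scoped Classical

theorem result (k : Type) [Field k] [Finite k] [CharP k 2] (a : k[X])
    (ha : ∀ x : k[X], x ^ 2 + x + a ^ 2 ≠ 0) :
    ∃ (r : ℕ) (c : ℝ), 0 < c ∧ ∀ᶠ N : ℕ in atTop, ∀ e : ℕ,
      c * (Nat.card k : ℝ) ^ (2 * N) / (2 * (N : ℝ)) ^ 2 ≤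
        (Set.ncard {P : k[X] | P.Monic ∧ Irreducible P ∧ P.natDegree = 2 * N ∧
          Squarefree (P ^ 2 + P + a ^ 2) ∧
          (UniqueFactorizationMonoid.normalizedFactors (P ^ 2 + P + a ^ 2)).card ≤ r ∧
          (UniqueFactorizationMonoid.normalizedFactors (P ^ 2 + P + a ^ 2)).card % 2 = e % 2} : ℝ) :=
  Pool.Agent.P.MP_6f5b02_nt.CP.a_FIN k a ha

end Pool.Agent.Results.MP_6f5b02_nt.PrimeArgumentParity
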